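import Mathlib
import Pool.Agent.D0H11.GM.Stm
import Pool.Agent.H357R2.SI.Common

/-! Project GM (helper11), module 4: the lower bound for one quadruple. -/

set_option autoImplicit false

namespace Pool.Agent.D0H8.GM

open Finset MeasureTheory Filter Topology
open Pool.Agent.D0H11.GM
open Pool.Agent.H357R2.SI (pc pc_eq_sub)

/-- the prime number theorem in windows `(x₁, x₂]`, `η x₂ ≤ x₁` -/
theorem window (δ η : ℝ) (hδ : 0 < δ) (hη : 0 < η) : ∃ X₀ : ℝ, ∀ x₁ x₂ : ℝ, X₀ ≤ x₂ → η * x₂ ≤ x₁ → x₁ ≤ x₂ →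
    (x₂ - x₁ - δ * x₂) / Real.log x₂ ≤ (pc ⌊x₁⌋₊ ⌊x₂⌋₊ : ℝ) := by
  obtain ⟨ε, hε⟩ : ∃ ε : ℝ, ε = min (1 / 2) (δ / 5) := ⟨_, rfl⟩
  have hε0 : 0 < ε := by rw [hε]; positivity
  have hε1 : ε ≤ 1 / 2 := by rw [hε]; exact min_le_left _ _
  have hε2 : 5 * ε ≤ δ := by
    have := min_le_right (1 / 2 : ℝ) (δ / 5)
    rw [← hε] at this
    linarith
  have h1 := Pool.Agent.Helper923.PNT.pi_tendsto
  have h2 := (h1.eventually (Icc_mem_nhds (show 1 - ε < 1 by linarith) (show 1 < 1 + ε by linarith)))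
  obtain ⟨u₀, hu₀⟩ := Filter.eventually_atTop.1 h2
  have e1 : ∀ᶠ x : ℝ in Filter.atTop, -Real.log η ≤ ε * Real.log x :=
    (Real.tendsto_log_atTop.const_mul_atTop hε0).eventually_ge_atTop (-Real.log η)
  have e2 : ∀ᶠ x : ℝ in Filter.atTop, max u₀ 3 ≤ η * x :=
    (Filter.tendsto_id.const_mul_atTop hη).eventually_ge_atTop _
  obtain ⟨X₀, hX₀⟩ := Filter.eventually_atTop.1 (e1.and (e2.and (eventually_ge_atTop (max u₀ 3))))
  refine ⟨X₀, fun x₁ x₂ hx h12 h21 => ?_⟩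
  obtain ⟨f1, f2, f3⟩ := hX₀ x₂ hx
  have g1 : u₀ ≤ x₁ := (le_max_left _ _).trans (f2.trans h12)
  have g2 : 3 ≤ x₁ := (le_max_right _ _).trans (f2.trans h12)
  have g3 : u₀ ≤ x₂ := (le_max_left _ _).trans f3
  have g4 : 3 ≤ x₂ := (le_max_right _ _).trans f3
  have hl2 : 0 < Real.log x₂ := Real.log_pos (by linarith)
  have hl1 : 0 < Real.log x₁ := Real.log_pos (by linarith)
  have hl : (1 - ε) * Real.log x₂ ≤ Real.log x₁ := by
    have h3 : Real.log (η * x₂) ≤ Real.log x₁ := Real.log_le_log (by positivity) h12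
    rw [Real.log_mul hη.ne' (by linarith)] at h3
    linarith
  have k1 := (hu₀ x₁ g1).2
  have k2 := (hu₀ x₂ g3).1
  rw [div_le_iff₀ (by linarith)] at k1
  rw [le_div_iff₀ (by linarith)] at k2
  rw [pc_eq_sub (Nat.floor_le_floor h21), div_le_iff₀ hl2]
  have hP : (0 : ℝ) ≤ Nat.primeCounting ⌊x₁⌋₊ := Nat.cast_nonneg _
  have k3 : (Nat.primeCounting ⌊x₁⌋₊ : ℝ) * Real.log x₂ * (1 - ε) ≤ (1 + ε) * x₁ := by
    have := mul_le_mul_of_nonneg_left hl hP
    nlinarith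
  have k4 : (Nat.primeCounting ⌊x₁⌋₊ : ℝ) * Real.log x₂ ≤ (1 + 4 * ε) * x₁ := by
    have h5 : (1 + ε) * x₁ ≤ (1 + 4 * ε) * x₁ * (1 - ε) := by
      have h7 := mul_nonneg (mul_nonneg hε0.le (show 0 ≤ x₁ by linarith)) (show 0 ≤ 1 - 2 * ε by linarith)
      nlinarith
    have h6 : 0 < 1 - ε := by linarith
    exact le_of_mul_le_mul_right (k3.trans h5) h6
  nlinarith

/-- the measure of one slice -/
theorem slice (k t a₁ a₂ : ℝ) (hk : 0 < k) :
    ENNReal.ofReal ((pc ⌊a₁ * k + t + 1⌋₊ ⌊a₂ * k + t⌋₊ : ℝ) / k) ≤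
      volume {α : ℝ | α ∈ Set.Icc a₁ a₂ ∧ (⌊α * k + t⌋₊ + 1).Prime} := by
  obtain ⟨P, hP⟩ : ∃ P : Finset ℕ, P = (Ioc ⌊a₁ * k + t + 1⌋₊ ⌊a₂ * k + t⌋₊).filter Nat.Prime := ⟨_, rfl⟩
  have hmem : ∀ p ∈ P, p.Prime ∧ a₁ * k + t + 1 < p ∧ (p : ℝ) ≤ a₂ * k + t := by
    intro p hp
    rw [hP, mem_filter, mem_Ioc] at hp
    refine ⟨hp.2, (Nat.floor_lt' hp.2.pos.ne').1 hp.1.1, ?_⟩
    exact (Nat.le_floor_iff' hp.2.pos.ne').1 hp.1.2
  have hfl : ∀ p ∈ P, ∀ α ∈ Set.Ico (((p : ℝ) - 1 - t) / k) (((p : ℝ) - t) / k), ⌊α * k + t⌋₊ + 1 = p := by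
    intro p hp α hα
    obtain ⟨hp1, -, -⟩ := hmem p hp
    have h1 : (p : ℝ) - 1 ≤ α * k + t := by
      have := (div_le_iff₀ hk).1 hα.1
      linarith
    have h2 : α * k + t < p := by
      have := (lt_div_iff₀ hk).1 hα.2
      linarith
    have h3 : 1 ≤ p := hp1.pos
    have h4 : ⌊α * k + t⌋₊ = p - 1 := by
      rw [Nat.floor_eq_iff (by
        have : (1 : ℝ) ≤ p := by exact_mod_cast h3
        linarith)]
      rw [Nat.cast_sub h3]
      push_cast
      constructor <;> linarith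
    omega
  calc ENNReal.ofReal ((pc ⌊a₁ * k + t + 1⌋₊ ⌊a₂ * k + t⌋₊ : ℝ) / k)
      = ∑ p ∈ P, volume (Set.Ico (((p : ℝ) - 1 - t) / k) (((p : ℝ) - t) / k)) := by
        have h1 : ∀ p ∈ P, volume (Set.Ico (((p : ℝ) - 1 - t) / k) (((p : ℝ) - t) / k)) = ENNReal.ofReal (1 / k) := by
          intro p _
          rw [Real.volume_Ico]
          congr 1
          field_simp
          ring
        rw [Finset.sum_congr rfl h1, Finset.sum_const, nsmul_eq_mul, ← ENNReal.ofReal_natCast,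
          ← ENNReal.ofReal_mul (by positivity)]
        congr 1
        rw [hP, pc]
        ring
    _ = volume (⋃ p ∈ P, Set.Ico (((p : ℝ) - 1 - t) / k) (((p : ℝ) - t) / k)) := by
        rw [measure_biUnion_finset]
        · intro p hp p' hp' hne
          rw [Function.onFun, Set.disjoint_left]
          intro α h1 h2
          exact hne ((hfl p hp α h1).symm.trans (hfl p' hp' α h2))
        · intro p _
          exact measurableSet_Ico
    _ ≤ _ := by
        apply measure_mono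
        intro α hα
        simp only [Set.mem_iUnion, exists_prop] at hα
        obtain ⟨p, hp, hα⟩ := hα
        obtain ⟨h1, h2, h3⟩ := hmem p hp
        refine ⟨⟨?_, ?_⟩, by rw [hfl p hp α hα]; exact h1⟩
        · have := (div_le_iff₀ hk).1 hα.1
          nlinarith
        · have := (lt_div_iff₀ hk).1 hα.2
          nlinarith

/-- the lower bound for `v ≤ u` -/
theorem one_aux (a b r : ℝ) (hr : 0 < r) (ha : r < a) (hb : r < b) : ∀ᶠ M : ℕ in atTop, ∀ u v : ℕ, v ≤ u → 2 * M ≤ u →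
    u ≤ 4 * M → ENNReal.ofReal (1 / 2 * r ^ 2 / M) ≤
      volume {x : ℝ × ℝ | x ∈ Metric.closedBall (a, b) r ∧ (⌊x.1 * 2 ^ u + x.2 * 2 ^ v⌋₊ + 1).Prime} := by
  obtain ⟨K, hK⟩ : ∃ K : ℝ, K = a + b + 2 * r := ⟨_, rfl⟩
  have hK0 : 0 < K := by rw [hK]; linarith
  have hKr : 4 * r < K := by rw [hK]; linarith
  obtain ⟨X₀, hX₀⟩ := window (r / (2 * K)) ((a - r) / K) (by positivity) (div_pos (by linarith) hK0)
  have e0 : Tendsto (fun M : ℕ => (2 : ℝ) ^ M) atTop atTop := tendsto_pow_atTop_atTop_of_one_lt (by norm_num)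
  have e1 : ∀ᶠ M : ℕ in atTop, 2 * max X₀ 2 / r + 2 / r ≤ (2 : ℝ) ^ M := e0.eventually_ge_atTop _
  have e2 : ∀ᶠ M : ℕ in atTop, |Real.log K| * 4 ≤ (M : ℝ) := tendsto_natCast_atTop_atTop.eventually_ge_atTop _
  filter_upwards [e1, e2, eventually_ge_atTop 1] with M h1 h2 h3 u v hvu hu1 hu2
  have hM : (1 : ℝ) ≤ M := by exact_mod_cast h3
  have hk : (2 : ℝ) ^ M ≤ 2 ^ u := pow_le_pow_right₀ (by norm_num) (by omega)
  have hkv : (2 : ℝ) ^ v ≤ 2 ^ u := pow_le_pow_right₀ (by norm_num) hvu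
  obtain ⟨k, hkk⟩ : ∃ k : ℝ, k = 2 ^ u := ⟨_, rfl⟩
  obtain ⟨l, hll⟩ : ∃ l : ℝ, l = 2 ^ v := ⟨_, rfl⟩
  rw [← hkk, ← hll]
  rw [← hkk] at hk hkv
  rw [← hll] at hkv
  have hk0 : 0 < k := by rw [hkk]; positivity
  have hl0 : 0 < l := by rw [hll]; positivity
  have hX2 : 2 * max X₀ 2 / r + 2 / r ≤ k := h1.trans hk
  have hkr : 2 * max X₀ 2 + 2 ≤ r * k := by
    have h4 : 2 * max X₀ 2 / r + 2 / r = (2 * max X₀ 2 + 2) / r := by ring
    rw [h4, div_le_iff₀ hr] at hX2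
    linarith
  -- the number of primes
  have key : ∀ y ∈ Set.Icc (b - r) (b + r), r / (4 * M) ≤
      (pc ⌊(a - r) * k + y * l + 1⌋₊ ⌊(a + r) * k + y * l⌋₊ : ℝ) / k := by
    intro y hy
    obtain ⟨hy1, hy2⟩ := hy
    have hy0 : 0 < y := by linarith
    obtain ⟨x₁, hx₁⟩ : ∃ x : ℝ, x = (a - r) * k + y * l + 1 := ⟨_, rfl⟩
    obtain ⟨x₂, hx₂⟩ : ∃ x : ℝ, x = (a + r) * k + y * l := ⟨_, rfl⟩
    rw [← hx₁, ← hx₂]
    have hyl : y * l ≤ (b + r) * k := by
      calc y * l ≤ y * k := mul_le_mul_of_nonneg_left hkv hy0.le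
        _ ≤ _ := mul_le_mul_of_nonneg_right hy2 hk0.le
    have hyl0 : 0 < y * l := mul_pos hy0 hl0
    have hxK : x₂ ≤ K * k := by rw [hx₂, hK]; nlinarith
    have hm0 : X₀ ≤ max X₀ 2 := le_max_left _ _
    have hm1 : 2 ≤ max X₀ 2 := le_max_right _ _
    have hrk : r * k ≤ x₂ := by
      rw [hx₂]
      nlinarith
    have hxX : X₀ ≤ x₂ := by linarith
    have hx2 : 2 ≤ x₂ := by linarith
    have h12 : (a - r) / K * x₂ ≤ x₁ := by
      rw [div_mul_eq_mul_div, div_le_iff₀ hK0]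
      have h5 : (a - r) * x₂ ≤ (a - r) * (K * k) := mul_le_mul_of_nonneg_left hxK (by linarith)
      have h6 : (a - r) * k * K ≤ x₁ * K := by
        apply mul_le_mul_of_nonneg_right _ hK0.le
        rw [hx₁]; linarith
      nlinarith
    have h21 : x₁ ≤ x₂ := by rw [hx₁, hx₂]; nlinarith
    have h7 := hX₀ x₁ x₂ hxX h12 h21
    have hlx : 0 < Real.log x₂ := Real.log_pos (by linarith)
    have hlog : Real.log x₂ ≤ 4 * M := by
      calc Real.log x₂ ≤ Real.log (K * k) := Real.log_le_log (by linarith) hxK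
        _ = Real.log K + u * Real.log 2 := by
            rw [Real.log_mul hK0.ne' hk0.ne', hkk, Real.log_pow]
        _ ≤ M / 4 + (4 * M) * 0.7 := by
            have h8 : Real.log K ≤ M / 4 := by
              have := le_abs_self (Real.log K)
              linarith
            have h9 : Real.log 2 ≤ 0.7 := by
              have := Real.log_two_lt_d9
              linarith
            have h10 : (u : ℝ) ≤ 4 * M := by exact_mod_cast hu2
            have h11 : 0 ≤ Real.log 2 := Real.log_nonneg (by norm_num)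
            have h12 : (u : ℝ) * Real.log 2 ≤ (4 * M) * 0.7 := by
              apply mul_le_mul h10 h9 h11 (by positivity)
            linarith
        _ ≤ 4 * M := by linarith
    have hnum : r * k ≤ x₂ - x₁ - r / (2 * K) * x₂ := by
      have h8 : r / (2 * K) * x₂ ≤ r / (2 * K) * (K * k) := mul_le_mul_of_nonneg_left hxK (by positivity)
      have h9 : r / (2 * K) * (K * k) = r * k / 2 := by field_simp
      have h10 : x₂ - x₁ = 2 * (r * k) - 1 := by rw [hx₁, hx₂]; ring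
      linarith
    rw [le_div_iff₀ hk0]
    calc r / (4 * M) * k = r * k / (4 * M) := by ring
      _ ≤ r * k / Real.log x₂ := div_le_div_of_nonneg_left (by positivity) hlx hlog
      _ ≤ _ := (div_le_div_of_nonneg_right hnum hlx.le).trans h7
  -- the integral over the slices
  obtain ⟨S, hS⟩ : ∃ S : Set (ℝ × ℝ), S = {x : ℝ × ℝ | x ∈ Metric.closedBall (a, b) r ∧
      (⌊x.1 * k + x.2 * l⌋₊ + 1).Prime} := ⟨_, rfl⟩
  rw [← hS]
  have hSm : MeasurableSet S := by
    rw [hS]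
    apply Metric.isClosed_closedBall.measurableSet.inter
    have hf : Measurable fun x : ℝ × ℝ => ⌊x.1 * k + x.2 * l⌋₊ :=
      Nat.measurable_floor.comp (by fun_prop)
    exact hf (MeasurableSet.of_discrete (s := {n : ℕ | (n + 1).Prime}))
  rw [Measure.volume_eq_prod, Measure.prod_apply_symm hSm]
  calc ENNReal.ofReal (1 / 2 * r ^ 2 / M) = ∫⁻ _ in Set.Icc (b - r) (b + r), ENNReal.ofReal (r / (4 * M)) := by
        rw [setLIntegral_const, Real.volume_Icc, ← ENNReal.ofReal_mul (by positivity)]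
        congr 1
        field_simp
        ring
    _ ≤ ∫⁻ y in Set.Icc (b - r) (b + r), volume ((fun x => (x, y)) ⁻¹' S) := by
        apply setLIntegral_mono' measurableSet_Icc
        intro y hy
        refine (ENNReal.ofReal_le_ofReal (key y hy)).trans ((slice k (y * l) (a - r) (a + r) hk0).trans ?_)
        apply measure_mono
        intro α hα
        rw [hS]
        refine ⟨?_, hα.2⟩
        rw [Metric.mem_closedBall, Prod.dist_eq, max_le_iff, Real.dist_eq, Real.dist_eq, abs_le, abs_le]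
        obtain ⟨⟨h4, h5⟩, -⟩ := hα
        obtain ⟨h6, h7⟩ := hy
        refine ⟨⟨by simp; linarith, by simp; linarith⟩, by simp; linarith, by simp; linarith⟩
    _ ≤ ∫⁻ y, volume ((fun x => (x, y)) ⁻¹' S) := setLIntegral_le_lintegral _ _

theorem t_ONE : S_ONE := by
  refine ⟨1 / 2, by norm_num, fun c r hc => ?_⟩
  obtain ⟨hr, h1, h2⟩ := hc
  filter_upwards [one_aux c.1 c.2 r hr h1 h2, one_aux c.2 c.1 r hr h2 h1] with M e1 e2 q hq
  have hq' : 2 * M ≤ uu q ∧ uu q ≤ 4 * M ∧ 2 * M ≤ vv q ∧ vv q ≤ 4 * M := by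
    rw [QQ, mem_filter, Fintype.mem_piFinset] at hq
    have h0 := mem_Ico.1 (hq.1 0)
    have h1 := mem_Ico.1 (hq.1 1)
    have h2 := mem_Ico.1 (hq.1 2)
    have h3 := mem_Ico.1 (hq.1 3)
    unfold uu vv
    omega
  rcases le_total (vv q) (uu q) with h | h
  · exact e1 (uu q) (vv q) h hq'.1 hq'.2.1
  · refine (e2 (vv q) (uu q) h hq'.2.2.1 hq'.2.2.2).trans (le_of_eq ?_)
    obtain ⟨S, hS⟩ : ∃ S : Set (ℝ × ℝ), S = {a : ℝ × ℝ | a ∈ Metric.closedBall c r ∧ PP a q} := ⟨_, rfl⟩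
    have hSm : MeasurableSet S := by
      rw [hS]
      apply Metric.isClosed_closedBall.measurableSet.inter
      have hf : Measurable fun a : ℝ × ℝ => ⌊LL a q⌋₊ :=
        Nat.measurable_floor.comp (by unfold LL; fun_prop)
      exact hf (MeasurableSet.of_discrete (s := {n : ℕ | (n + 1).Prime}))
    have h3 := (Measure.measurePreserving_swap (μ := (volume : Measure ℝ)) (ν := (volume : Measure ℝ))).measure_preimage
      hSm.nullMeasurableSet
    rw [← hS, Measure.volume_eq_prod, ← h3]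
    congr 1
    ext x
    rw [hS]
    simp only [Set.mem_ofPred_eq, Set.mem_preimage, PP, LL, Metric.mem_closedBall, Prod.dist_eq, Prod.fst_swap, Prod.snd_swap]
    rw [max_comm, add_comm (x.1 * 2 ^ vv q)]

end Pool.Agent.D0H8.GM
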